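import Mathlib
import Pool.Agent.Cone58.Def
import Pool.Agent.Cone58.Final
import Pool.Agent.Cone58.Num

/-!
The lattice packing density of the circular cone.

There is exactly one root `e` in `(0,1)` of `2e⁵+15e⁴+14e³-96e²-24e+9`, and the lattice packing
density of every circular cone is
`δ = π(3+e)/(3(3+e²)) · √((3+e)/((3-e)(1+e)(5+e))) = 0.4717521…`; it is attained.
-/

namespace Pool.Agent.Results.MP_45759f_co.ConeDensity

open Cone58

theorem result :
    ∃ e δ : ℝ,
      (0 < e ∧ e < 1 ∧ 2*e^5 + 15*e^4 + 14*e^3 - 96*e^2 - 24*e + 9 = 0) ∧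
      (∀ x : ℝ, 0 < x → x < 1 → 2*x^5 + 15*x^4 + 14*x^3 - 96*x^2 - 24*x + 9 = 0 → x = e) ∧
      δ = Real.pi * (3 + e) / (3 * (3 + e^2)) * √((3 + e) / ((3 - e) * (1 + e) * (5 + e))) ∧
      (4717521 / 10000000 < δ ∧ δ < 4717522 / 10000000) ∧
      ∀ K : Set E3, IsCircularCone K →
        latticePackingDensity K = δ ∧ IsGreatest (latticeDensities K) δ := by
  obtain ⟨h1, h2, h3⟩ := e0_spec
  refine ⟨e0, (Real.pi/3)/√(G2 e0), ⟨by linarith, by linarith, h3⟩, ?_, value_eq.symm, value_num, ?_⟩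
  · intro x x0 x1 hx
    exact root_unique x0.le x1.le (by linarith) (by linarith) hx h3
  · intro K hK
    obtain ⟨c, L, rfl⟩ := cone_frame hK
    have hg : IsGreatest (latticeDensities ((fun p => c + L p) '' C0)) ((Real.pi/3)/√(G2 e0)) :=
      ⟨attained c L, fun d hd => upper c L hd⟩
    exact ⟨hg.csSup_eq, hg⟩

end Pool.Agent.Results.MP_45759f_co.ConeDensity
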